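import Pool.Agent.N557.BP.Stm2
import Pool.Agent.TH103.BL.Vtx

/-!
# Project BP (helper557), part R3 (helper910): the slices have limits at the vertices
-/

set_option autoImplicit false

namespace Pool.Agent.N910.BP

open Complex Set MeasureTheory Filter Topology Pool.Agent.W780.PG Pool.Agent.W780.BB
  Pool.Agent.TH103.BL Pool.Agent.N557.BP

open scoped Real ComplexConjugate

variable {n : ℕ} {p : Fin (n + 3) → ℂ}

/-- the states near the vertex where the function is far from `q` -/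
def Bad (p : Fin (n + 3) → ℂ) (f : ℂ × ℝ → ℝ) (i : Fin (n + 3)) (k m : ℕ) (q : ℚ) :
    Set (ℂ × ℝ) :=
  {x | x.1 ∈ reg p ∧ ‖x.1 - p i‖ < 1 / ((m : ℝ) + 1) ∧ 1 / ((k : ℝ) + 1) < |f x - q|}

/-- the directions in which the slice has a limit at the vertex -/
def EE (p : Fin (n + 3) → ℂ) (f : ℂ × ℝ → ℝ) (i : Fin (n + 3)) : Set ℝ :=
  {θ | ∀ k : ℕ, ∃ m : ℕ, ∃ q : ℚ, volume ((fun z : ℂ => (z, θ)) ⁻¹' Bad p f i k m q) = 0}

theorem bad_meas (hp : IsConvexPolygon p) {f : ℂ × ℝ → ℝ} (hf : Measurable f)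
    (i : Fin (n + 3)) (k m : ℕ) (q : ℚ) : MeasurableSet (Bad p f i k m q) := by
  have h1 : MeasurableSet {x : ℂ × ℝ | x.1 ∈ reg p} :=
    measurable_fst (reg_open hp).measurableSet
  have h2 : MeasurableSet {x : ℂ × ℝ | ‖x.1 - p i‖ < 1 / ((m : ℝ) + 1)} :=
    measurableSet_lt (by fun_prop) measurable_const
  have h3 : MeasurableSet {x : ℂ × ℝ | 1 / ((k : ℝ) + 1) < |f x - q|} :=
    measurableSet_lt measurable_const (hf.sub_const _).abs
  exact h1.inter (h2.inter h3)

theorem ee_meas (hp : IsConvexPolygon p) {f : ℂ × ℝ → ℝ} (hf : Measurable f)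
    (i : Fin (n + 3)) : MeasurableSet (EE p f i) := by
  have h1 : EE p f i = ⋂ k : ℕ, ⋃ m : ℕ, ⋃ q : ℚ,
      {θ | volume ((fun z : ℂ => (z, θ)) ⁻¹' Bad p f i k m q) = 0} := by
    ext θ
    simp only [EE, mem_iInter, mem_iUnion]
    rfl
  rw [h1]
  refine MeasurableSet.iInter fun k => MeasurableSet.iUnion fun m => MeasurableSet.iUnion fun q => ?_
  exact measurable_measure_prodMk_right (bad_meas hp hf i k m q) (measurableSet_singleton 0)

theorem ee_vl (hp : IsConvexPolygon p) {f : ℂ × ℝ → ℝ} (i : Fin (n + 3)) (θ : ℝ) :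
    θ ∈ EE p f i ↔ VL p f i θ := by
  have hrr := region_eq hp
  constructor
  · intro h
    choose m q hmq using h
    have hae : ∀ k : ℕ, ∀ᵐ z : ℂ, z ∈ reg p → ‖z - p i‖ < 1 / ((m k : ℝ) + 1) →
        |f (z, θ) - q k| ≤ 1 / ((k : ℝ) + 1) := by
      intro k
      have h1 := measure_eq_zero_iff_ae_notMem.1 (hmq k)
      filter_upwards [h1] with z hz h2 h3
      by_contra h4
      exact hz ⟨h2, h3, not_le.1 h4⟩
    have hpos : ∀ r : ℝ, 0 < r → ∀ P : ℂ → Prop, (∀ᵐ z : ℂ, P z) →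
        ∃ z ∈ reg p, ‖z - p i‖ < r ∧ P z := by
      intro r hr P hP
      obtain ⟨z0, hz0, hz0r⟩ := near_vertex hp i hr
      have hev : ∀ᶠ z in 𝓝 z0, z ∈ reg p ∧ ‖z - p i‖ < r := by
        have c1 : ∀ᶠ z in 𝓝 z0, z ∈ reg p := (reg_open hp).mem_nhds hz0
        have c2 : ∀ᶠ z in 𝓝 z0, ‖z - p i‖ < r := by
          have : Continuous fun z : ℂ => ‖z - p i‖ := by fun_prop
          exact (this.tendsto z0).eventually_lt_const hz0r
        exact c1.and c2
      have hdense := Measure.dense_of_ae hP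
      obtain ⟨z, hz1, hz2, hz3⟩ := hdense.inter_nhds_nonempty hev
      exact ⟨z, hz2, hz3, hz1⟩
    have hd : ∀ j k : ℕ, |(q j : ℝ) - q k| ≤ 1 / ((j : ℝ) + 1) + 1 / ((k : ℝ) + 1) := by
      intro j k
      obtain ⟨z, hz, hzr, h1, h2⟩ := hpos (min (1 / ((m j : ℝ) + 1)) (1 / ((m k : ℝ) + 1)))
        (lt_min (by positivity) (by positivity)) _ ((hae j).and (hae k))
      have h3 := h1 hz (hzr.trans_le (min_le_left _ _))
      have h4 := h2 hz (hzr.trans_le (min_le_right _ _))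
      have e1 : (q j : ℝ) - q k = (f (z, θ) - q k) - (f (z, θ) - q j) := by ring
      rw [e1]
      refine (abs_sub _ _).trans ?_
      linarith
    have hcau : CauchySeq fun k => (q k : ℝ) := by
      rw [Metric.cauchySeq_iff']
      intro ε hε
      obtain ⟨N, hN⟩ := exists_nat_one_div_lt (show 0 < ε / 2 by positivity)
      refine ⟨N, fun k hk => ?_⟩
      rw [Real.dist_eq]
      have h1 := hd k N
      have h2 : 1 / ((k : ℝ) + 1) ≤ 1 / ((N : ℝ) + 1) := by
        apply one_div_le_one_div_of_le (by positivity)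
        have : (N : ℝ) ≤ k := by exact_mod_cast hk
        linarith
      linarith
    obtain ⟨l, hl⟩ := cauchySeq_tendsto_of_complete hcau
    have hlq : ∀ k : ℕ, |(q k : ℝ) - l| ≤ 1 / ((k : ℝ) + 1) := by
      intro k
      have h1 : Tendsto (fun j : ℕ => |(q k : ℝ) - q j|) atTop (𝓝 |(q k : ℝ) - l|) :=
        (tendsto_const_nhds.sub hl).abs
      have h2 : Tendsto (fun j : ℕ => 1 / ((k : ℝ) + 1) + 1 / ((j : ℝ) + 1)) atTop
          (𝓝 (1 / ((k : ℝ) + 1) + 0)) :=
        tendsto_const_nhds.add (tendsto_one_div_add_atTop_nhds_zero_nat (𝕜 := ℝ))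
      rw [add_zero] at h2
      exact le_of_tendsto_of_tendsto' h1 h2 fun j => hd k j
    refine ⟨l, fun η hη => ?_⟩
    obtain ⟨k, hk⟩ := exists_nat_one_div_lt (show 0 < η / 2 by positivity)
    refine ⟨1 / ((m k : ℝ) + 1), by positivity, ?_⟩
    filter_upwards [hae k] with z hz h1 h2
    rw [hrr] at h1
    have h3 := hz h1 h2
    have h4 := hlq k
    have e1 : f (z, θ) - l = (f (z, θ) - q k) + (q k - l) := by ring
    rw [e1]
    refine (abs_add_le _ _).trans ?_
    linarith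
  · rintro ⟨l, hl⟩ k
    obtain ⟨r, hr, hae⟩ := hl (1 / (2 * ((k : ℝ) + 1))) (by positivity)
    obtain ⟨m, hm⟩ := exists_nat_one_div_lt hr
    obtain ⟨q, hq1, hq2⟩ := exists_rat_btwn (show l < l + 1 / (2 * ((k : ℝ) + 1)) by
      have : 0 < 1 / (2 * ((k : ℝ) + 1)) := by positivity
      linarith)
    refine ⟨m, q, ?_⟩
    rw [measure_eq_zero_iff_ae_notMem]
    filter_upwards [hae] with z hz hbad
    obtain ⟨h1, h2, h3⟩ := hbad
    have h4 := hz (by rw [hrr]; exact h1) (h2.trans hm)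
    have e1 : f (z, θ) - q = (f (z, θ) - l) + (l - q) := by ring
    have h5 : |l - (q : ℝ)| < 1 / (2 * ((k : ℝ) + 1)) := by
      rw [abs_lt]
      constructor <;> linarith
    have h6 : |f (z, θ) - q| < 1 / ((k : ℝ) + 1) := by
      rw [e1]
      refine (abs_add_le _ _).trans_lt ?_
      have e2 : 1 / ((k : ℝ) + 1) = 1 / (2 * ((k : ℝ) + 1)) + 1 / (2 * ((k : ℝ) + 1)) := by
        field_simp
        ring
      rw [e2]
      linarith
    exact absurd h3 (not_lt.2 h6.le)

theorem sl_cont (p : Fin (n + 3) → ℂ) (i : Fin (n + 3)) : Continuous (sl p i) := by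
  unfold sl dir
  fun_prop

theorem t_r3 : S_R1 → S_R2 → S_R3 := by
  intro hR1 hR2 n p hp hirr f hf hI hO i
  have h1 := hR1 n p hp f hf hI hO i
  have hEm := ee_meas hp hf i
  have hper : ∀ θ, θ + 2 * π ∈ EE p f i ↔ θ ∈ EE p f i := by
    intro θ
    have : ∀ (k m : ℕ) (q : ℚ), ((fun z : ℂ => (z, θ + 2 * π)) ⁻¹' Bad p f i k m q) =
        ((fun z : ℂ => (z, θ)) ⁻¹' Bad p f i k m q) := by
      intro k m q
      ext z
      show (z ∈ reg p ∧ ‖z - p i‖ < 1 / ((m : ℝ) + 1) ∧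
        1 / ((k : ℝ) + 1) < |f (z, θ + 2 * π) - q|) ↔ (z ∈ reg p ∧ ‖z - p i‖ < 1 / ((m : ℝ) + 1) ∧
        1 / ((k : ℝ) + 1) < |f (z, θ) - q|)
      rw [hI.periodic]
    show (∀ k : ℕ, ∃ m : ℕ, ∃ q : ℚ, volume ((fun z : ℂ => (z, θ + 2 * π)) ⁻¹' Bad p f i k m q) = 0) ↔
      (∀ k : ℕ, ∃ m : ℕ, ∃ q : ℚ, volume ((fun z : ℂ => (z, θ)) ⁻¹' Bad p f i k m q) = 0)
    simp only [this]
  have hone : ∀ a : Fin (n + 3), (i = a ∨ i = a + 1) → ∀ᵐ θ : ℝ,
      θ ∉ EE p f i → 2 * tau p a - θ ∉ EE p f i := by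
    intro a hia
    filter_upwards [h1, ae_sl hp i, ae_sl hp (i - 1)] with θ e1 e2 e3 hθ hE
    rw [ee_vl hp] at hθ hE
    have h2 : sl p i θ * sl p (i - 1) θ < 0 := by
      rcases lt_trichotomy (sl p i θ * sl p (i - 1) θ) 0 with h | h | h
      · exact h
      · exact absurd h (mul_ne_zero e2 e3)
      · exact absurd (e1 h) hθ
    exact hθ (hR2 n p hp f hf hI i a hia θ h2 hE)
  have htwo : ∀ a : Fin (n + 3), (i = a ∨ i = a + 1) → ∀ᵐ θ : ℝ,
      (2 * tau p a - θ ∈ EE p f i ↔ θ ∈ EE p f i) := by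
    intro a hia
    have h2 : ∀ᵐ θ : ℝ, 2 * tau p a - θ ∉ EE p f i →
        2 * tau p a - (2 * tau p a - θ) ∉ EE p f i :=
      (Measure.measurePreserving_sub_left (volume : Measure ℝ)
        (2 * tau p a)).quasiMeasurePreserving.ae (hone a hia)
    filter_upwards [hone a hia, h2] with θ e1 e2
    rw [sub_sub_cancel] at e2
    constructor
    · intro h
      by_contra h3
      exact e1 h3 h
    · intro h
      by_contra h3
      exact e2 h3 h
  obtain ⟨k, hk⟩ := Pool.Agent.W337.BB.tau_th n p hp i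
  have hirr2 : Irrational ((tau p i - tau p (i - 1)) / π) := by
    rw [hk]
    have : (π - ang p i + 2 * k * π) / π = ((1 + 2 * k : ℤ) : ℝ) - ang p i / π := by
      have := Real.pi_ne_zero
      field_simp
      push_cast
      ring
    rw [this]
    exact (hirr i).intCast_sub _
  rcases Pool.Agent.W363.BB.rot (EE p f i) (tau p i) (tau p (i - 1)) hEm hper
    (htwo i (Or.inl rfl)) (htwo (i - 1) (Or.inr (by rw [sub_add_cancel]))) hirr2 with h | h
  · exfalso
    set U : Set ℝ := {θ | 0 < sl p i θ} ∩ {θ | 0 < sl p (i - 1) θ} with hU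
    have hUo : IsOpen U :=
      (isOpen_lt continuous_const (sl_cont p i)).inter
        (isOpen_lt continuous_const (sl_cont p (i - 1)))
    have hUn : U.Nonempty := by
      obtain ⟨z, hz, -⟩ := near_vertex hp i one_pos
      have hpol : z = p i + ‖z - p i‖ • dir (arg (z - p i)) := by
        unfold dir
        rw [real_smul, Complex.norm_mul_exp_arg_mul_I]
        ring
      have s1 : sf p i (p i) = 0 := Pool.Agent.W82.BB.sf_vertex_left p i
      have s2 : sf p (i - 1) (p i) = 0 := Pool.Agent.W82.BB.sf_vertex_right p i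
      have a1 : 0 < sf p i z := hz i
      have a2 : 0 < sf p (i - 1) z := hz (i - 1)
      rw [hpol, sf_ray, s1, zero_add] at a1
      rw [hpol, sf_ray, s2, zero_add] at a2
      refine ⟨arg (z - p i), ?_, ?_⟩
      · by_contra hc
        exact absurd a1 (not_lt.2 (mul_nonpos_of_nonneg_of_nonpos (norm_nonneg _) (not_lt.1 hc)))
      · by_contra hc
        exact absurd a2 (not_lt.2 (mul_nonpos_of_nonneg_of_nonpos (norm_nonneg _) (not_lt.1 hc)))
    have hU0 : volume U = 0 := by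
      rw [measure_eq_zero_iff_ae_notMem]
      have h2 := measure_eq_zero_iff_ae_notMem.1 h
      filter_upwards [h1, h2] with θ e1 e2 hθ
      exact e2 ((ee_vl hp i θ).2 (e1 (mul_pos hθ.1 hθ.2)))
    exact (hUo.measure_pos volume hUn).ne' hU0
  · have h2 := measure_eq_zero_iff_ae_notMem.1 h
    filter_upwards [h2] with θ e1
    rw [← ee_vl hp]
    by_contra hc
    exact e1 hc

end Pool.Agent.N910.BP
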